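import Pool.Agent.N943.DS.Pr

/-!
# Divisors of shifted primes and thin sets of tuples (helper28)
-/

set_option autoImplicit false

namespace Pool.Agent.T4h28.DT

open Finset Classical

/-- the primes `p ≤ X` with `|a| < p` and `d ∣ p + a` -/
noncomputable def Q (a : ℤ) (X d : ℕ) : Finset ℕ :=
  (Icc 1 X).filter (fun p : ℕ => p.Prime ∧ a.natAbs < p ∧ (d : ℤ) ∣ (p : ℤ) + a)

lemma one (a : ℤ) (X d : ℕ) (hd : 1 ≤ d) (hX : 4 ≤ X) :
    ((Q a X d).card : ℝ) ≤ 176 * (1 + a.natAbs) * (X / Real.log X) * ((1 + Real.log d) ^ 3 / d) := by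
  have hd1 : (1 : ℝ) ≤ d := by exact_mod_cast hd
  have hd0 : (0 : ℝ) < d := by linarith
  have hX4 : (4 : ℝ) ≤ X := by exact_mod_cast hX
  have hX0 : (0 : ℝ) < X := by linarith
  have hlX : 0 < Real.log X := Real.log_pos (by linarith)
  have hld : 0 ≤ Real.log d := Real.log_nonneg hd1
  have ha : (0 : ℝ) ≤ a.natAbs := Nat.cast_nonneg _
  have hU : 0 < (X : ℝ) / Real.log X := by positivity
  rcases le_or_gt (d * d) X with h | h
  · have h1 := Pool.Agent.N943.DS.bt_small a X d hd hX h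
    have h2 : ((Q a X d).card : ℝ) ≤
        (((Icc 1 X).filter (fun p : ℕ => p.Prime ∧ (d : ℤ) ∣ (p : ℤ) + a)).card : ℝ) := by
      have : Q a X d ⊆ (Icc 1 X).filter (fun p : ℕ => p.Prime ∧ (d : ℤ) ∣ (p : ℤ) + a) := by
        intro p hp
        unfold Q at hp
        rw [mem_filter] at hp ⊢
        exact ⟨hp.1, hp.2.1, hp.2.2.2⟩
      exact_mod_cast card_le_card this
    refine h2.trans (h1.trans ?_)
    have h3 : (1 + Real.log d) ^ 2 / d ≤ (1 + Real.log d) ^ 3 / d := by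
      apply div_le_div_of_nonneg_right _ hd0.le
      exact pow_le_pow_right₀ (by linarith) (by norm_num)
    have h4 : 0 ≤ (1 + Real.log d) ^ 2 / d := by positivity
    have h5 : 176 * ((X : ℝ) / Real.log X) ≤ 176 * (1 + a.natAbs) * (X / Real.log X) := by nlinarith
    exact mul_le_mul h5 h3 h4 (by positivity)
  · have h1 := Pool.Agent.N943.DS.big a X d hd (by omega)
    have h2 : ((Q a X d).card : ℝ) ≤
        (((Icc 1 X).filter (fun p : ℕ => a.natAbs < p ∧ (d : ℤ) ∣ (p : ℤ) + a)).card : ℝ) := by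
      have : Q a X d ⊆ (Icc 1 X).filter (fun p : ℕ => a.natAbs < p ∧ (d : ℤ) ∣ (p : ℤ) + a) := by
        intro p hp
        unfold Q at hp
        rw [mem_filter] at hp ⊢
        exact ⟨hp.1, hp.2.2.1, hp.2.2.2⟩
      exact_mod_cast card_le_card this
    refine h2.trans (h1.trans ?_)
    have h3 : Real.log X ≤ 2 * Real.log d := by
      have h4 : (X : ℝ) ≤ d * d := by exact_mod_cast h.le
      have h5 := Real.log_le_log hX0 h4
      rw [Real.log_mul hd0.ne' hd0.ne'] at h5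
      linarith
    have h6 : (X : ℝ) = X / Real.log X * Real.log X := by field_simp
    have h7 : Real.log X * (1 + Real.log d) ^ 2 ≤ 2 * (1 + Real.log d) ^ 3 := by
      have h8 : 0 ≤ (1 + Real.log d) ^ 2 := by positivity
      calc Real.log X * (1 + Real.log d) ^ 2 ≤ (2 * Real.log d) * (1 + Real.log d) ^ 2 :=
            mul_le_mul_of_nonneg_right h3 h8
        _ ≤ (2 * (1 + Real.log d)) * (1 + Real.log d) ^ 2 :=
            mul_le_mul_of_nonneg_right (by linarith) h8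
        _ = 2 * (1 + Real.log d) ^ 3 := by ring
    calc (1 + (a.natAbs : ℝ)) * X * ((1 + Real.log d) ^ 2 / d)
        = (1 + (a.natAbs : ℝ)) * (X / Real.log X) * (Real.log X * (1 + Real.log d) ^ 2) / d := by
          field_simp
      _ ≤ (1 + (a.natAbs : ℝ)) * (X / Real.log X) * (2 * (1 + Real.log d) ^ 3) / d := by
          apply div_le_div_of_nonneg_right _ hd0.le
          exact mul_le_mul_of_nonneg_left h7 (by positivity)
      _ = 2 * ((1 + (a.natAbs : ℝ)) * (X / Real.log X) * ((1 + Real.log d) ^ 3 / d)) := by ring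
      _ ≤ 176 * ((1 + (a.natAbs : ℝ)) * (X / Real.log X) * ((1 + Real.log d) ^ 3 / d)) := by
          apply mul_le_mul_of_nonneg_right (by norm_num)
          positivity
      _ = _ := by ring

lemma tele (n : ℕ) : ∑ j ∈ range n, 1 / (((j : ℝ) + 1) * ((j : ℝ) + 2)) ≤ 1 - 1 / ((n : ℝ) + 1) := by
  induction n with
  | zero => simp
  | succ n ih =>
    rw [sum_range_succ]
    have h : 1 / (((n : ℝ) + 1) * ((n : ℝ) + 2)) = 1 / ((n : ℝ) + 1) - 1 / ((n : ℝ) + 2) := by
      field_simp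
      ring
    rw [h]
    push_cast
    have h2 : (n : ℝ) + 1 + 1 = n + 2 := by ring
    rw [h2]
    linarith

/-- the sum over the scales -/
lemma scales (k : ℕ) : ∃ M : ℝ, 0 ≤ M ∧ ∀ y J : ℕ, 1 ≤ y →
    ∑ j ∈ (range J).filter (fun j => y < 2 ^ (j + 1)), (1 + (j : ℝ)) ^ (3 * k) / 2 ^ j ≤ M / √(y : ℝ) := by
  have hc : 0 < Real.log 2 / 2 := by have := Real.log_two_gt_d9; linarith
  obtain ⟨K, hK0, hK⟩ := Pool.Agent.N375.AV.absorb (3 * k + 2) one_pos hc
  refine ⟨4 * K, by positivity, fun y J hy => ?_⟩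
  have hy1 : (1 : ℝ) ≤ y := by exact_mod_cast hy
  have hsy : 0 < √(y : ℝ) := Real.sqrt_pos.2 (by linarith)
  have hterm : ∀ j ∈ (range J).filter (fun j => y < 2 ^ (j + 1)), (1 + (j : ℝ)) ^ (3 * k) / 2 ^ j ≤
      4 * K / √(y : ℝ) * (1 / (((j : ℝ) + 1) * ((j : ℝ) + 2))) := by
    intro j hj
    rw [mem_filter] at hj
    have hj0 : (0 : ℝ) ≤ j := Nat.cast_nonneg j
    have h2j : (0 : ℝ) < 2 ^ j := by positivity
    have hyj : (y : ℝ) ≤ 2 * 2 ^ j := by
      have : y ≤ 2 * 2 ^ j := by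
        have := hj.2
        rw [pow_succ] at this
        omega
      exact_mod_cast this
    have h1 := hK j hj0
    rw [Real.rpow_one] at h1
    have h3 : Real.exp (Real.log 2 / 2 * j) = √((2 : ℝ) ^ j) := by
      rw [Real.sqrt_eq_rpow, ← Real.rpow_natCast, ← Real.rpow_mul (by norm_num),
        Real.rpow_def_of_pos (by norm_num)]
      congr 1
      ring
    rw [h3] at h1
    obtain ⟨q, hq⟩ : ∃ q : ℝ, q = √((2 : ℝ) ^ j) := ⟨_, rfl⟩
    have hq0 : 0 < q := by rw [hq]; exact Real.sqrt_pos.2 h2j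
    have hqq : (2 : ℝ) ^ j = q * q := by rw [hq, Real.mul_self_sqrt h2j.le]
    rw [← hq] at h1
    have hsq : √(y : ℝ) ≤ 2 * q := by
      rw [Real.sqrt_le_left (by positivity)]
      rw [hqq] at hyj
      nlinarith
    rw [hqq]
    have h4 : (1 + (j : ℝ)) ^ (3 * k) * (((j : ℝ) + 1) * ((j : ℝ) + 2)) ≤ 2 * (K * q) := by
      calc (1 + (j : ℝ)) ^ (3 * k) * (((j : ℝ) + 1) * ((j : ℝ) + 2))
          ≤ (1 + (j : ℝ)) ^ (3 * k) * (((j : ℝ) + 1) * (2 * ((j : ℝ) + 1))) := by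
            apply mul_le_mul_of_nonneg_left _ (by positivity)
            apply mul_le_mul_of_nonneg_left _ (by positivity)
            linarith
        _ = 2 * (1 + (j : ℝ)) ^ (3 * k + 2) := by ring
        _ ≤ 2 * (K * q) := by linarith
    have hden : 0 < ((j : ℝ) + 1) * ((j : ℝ) + 2) := by positivity
    calc (1 + (j : ℝ)) ^ (3 * k) / (q * q)
        = (1 + (j : ℝ)) ^ (3 * k) * (((j : ℝ) + 1) * ((j : ℝ) + 2)) / (q * q) *
          (1 / (((j : ℝ) + 1) * ((j : ℝ) + 2))) := by field_simp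
      _ ≤ 2 * (K * q) / (q * q) * (1 / (((j : ℝ) + 1) * ((j : ℝ) + 2))) := by
          apply mul_le_mul_of_nonneg_right _ (by positivity)
          exact div_le_div_of_nonneg_right h4 (by positivity)
      _ = 2 * K / q * (1 / (((j : ℝ) + 1) * ((j : ℝ) + 2))) := by
          congr 1
          field_simp
      _ ≤ 4 * K / √(y : ℝ) * (1 / (((j : ℝ) + 1) * ((j : ℝ) + 2))) := by
          apply mul_le_mul_of_nonneg_right _ (by positivity)
          rw [div_le_div_iff₀ hq0 hsy]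
          nlinarith
  refine (sum_le_sum hterm).trans ?_
  rw [← mul_sum]
  have h5 : ∑ j ∈ (range J).filter (fun j => y < 2 ^ (j + 1)), 1 / (((j : ℝ) + 1) * ((j : ℝ) + 2)) ≤ 1 := by
    calc ∑ j ∈ (range J).filter (fun j => y < 2 ^ (j + 1)), 1 / (((j : ℝ) + 1) * ((j : ℝ) + 2))
        ≤ ∑ j ∈ range J, 1 / (((j : ℝ) + 1) * ((j : ℝ) + 2)) :=
          sum_le_sum_of_subset_of_nonneg (filter_subset _ _) (fun j _ _ => by positivity)
      _ ≤ 1 - 1 / ((J : ℝ) + 1) := tele J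
      _ ≤ 1 := by
          have : (0 : ℝ) ≤ 1 / ((J : ℝ) + 1) := by positivity
          linarith
  calc 4 * K / √(y : ℝ) * ∑ j ∈ (range J).filter (fun j => y < 2 ^ (j + 1)), 1 / (((j : ℝ) + 1) * ((j : ℝ) + 2))
      ≤ 4 * K / √(y : ℝ) * 1 := mul_le_mul_of_nonneg_left h5 (by positivity)
    _ = _ := mul_one _

end Pool.Agent.T4h28.DT
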