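import Pool.Agent.T4h28.DT.M

/-!
# The union bound over the tuples of divisors (helper28)
-/

set_option autoImplicit false

namespace Pool.Agent.T4h28.DT

open Finset Classical

/-- the `k`-tuples of primes `p_i ≤ X`, `|b_i| < p_i`, for which for some `T ≥ y` there is a tuple of divisors `s_i` of
`p_i + b_i` with `T ≤ s_i ≤ κ T` and the property `B T s` -/
def BadPrimes {k : ℕ} (κ : ℕ) (B : ℕ → (Fin k → ℕ) → Prop) (b : Fin k → ℤ) (X y : ℕ) : Set (Fin k → ℕ) :=
  {p | (∀ i, (p i).Prime ∧ (b i).natAbs < p i ∧ p i ≤ X) ∧ ∃ (T : ℕ) (s : Fin k → ℕ), y ≤ T ∧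
    (∀ i, T ≤ s i ∧ s i ≤ κ * T ∧ (s i : ℤ) ∣ (p i : ℤ) + b i) ∧ B T s}

/-- the bad tuples at the scale `N` -/
def BadAt {k : ℕ} (κ : ℕ) (B : ℕ → (Fin k → ℕ) → Prop) (N : ℕ) : Set (Fin k → ℕ) :=
  {s | (∀ j, N ≤ s j ∧ s j ≤ 2 * κ * N) ∧ ∃ T, N ≤ T ∧ T < 2 * N ∧ B T s}

lemma badAt_finite {k : ℕ} (κ : ℕ) (B : ℕ → (Fin k → ℕ) → Prop) (N : ℕ) : (BadAt κ B N).Finite := by
  refine (Set.Finite.pi' (t := fun _ : Fin k => Set.Icc N (2 * κ * N)) fun _ => Set.finite_Icc _ _).subset ?_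
  intro s hs j
  exact ⟨(hs.1 j).1, (hs.1 j).2⟩

lemma mem_Q {a : ℤ} {X d p : ℕ} (h1 : p.Prime) (h2 : a.natAbs < p) (h3 : p ≤ X) (h4 : (d : ℤ) ∣ (p : ℤ) + a) :
    p ∈ Q a X d := by
  unfold Q
  rw [mem_filter, mem_Icc]
  exact ⟨⟨h1.one_lt.le, h3⟩, h1, h2, h4⟩

/-- all tuples of primes -/
lemma trivial_bound {k : ℕ} (κ : ℕ) (B : ℕ → (Fin k → ℕ) → Prop) (b : Fin k → ℤ) (X y : ℕ) (hX : 4 ≤ X) :
    ((BadPrimes κ B b X y).ncard : ℝ) ≤ 176 ^ k * (∏ i, (1 + ((b i).natAbs : ℝ))) * (X / Real.log X) ^ k := by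
  have hsub : BadPrimes κ B b X y ⊆ ↑(Fintype.piFinset fun i => Q (b i) X 1) := by
    intro p hp
    rw [mem_coe, Fintype.mem_piFinset]
    intro i
    obtain ⟨h1, h2, h3⟩ := hp.1 i
    exact mem_Q h1 h2 h3 (by simp)
  have h1 := Set.ncard_le_ncard hsub (Finset.finite_toSet _)
  rw [Set.ncard_coe_finset, Fintype.card_piFinset] at h1
  have h2 : ((BadPrimes κ B b X y).ncard : ℝ) ≤ ∏ i, ((Q (b i) X 1).card : ℝ) := by exact_mod_cast h1
  refine h2.trans ?_
  have h3 : ∏ i, ((Q (b i) X 1).card : ℝ) ≤ ∏ i : Fin k, (176 * (1 + ((b i).natAbs : ℝ)) * (X / Real.log X)) := by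
    apply prod_le_prod
    · intro i _
      positivity
    · intro i _
      have := one (b i) X 1 le_rfl hX
      simpa using this
  refine h3.trans (le_of_eq ?_)
  rw [prod_mul_distrib, prod_mul_distrib, prod_const, prod_const, card_univ, Fintype.card_fin]

theorem machine {m : ℕ} (κ : ℕ) (B : ℕ → (Fin (m + 1) → ℕ) → Prop) (K N₀ : ℕ)
    (hB : ∀ N, N₀ ≤ N → (BadAt κ B N).ncard ≤ K * N ^ m) :
    ∃ M : ℝ, 0 ≤ M ∧ ∀ (b : Fin (m + 1) → ℤ) (X y : ℕ), 1 ≤ y → 4 ≤ X →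
      ((BadPrimes κ B b X y).ncard : ℝ) ≤
        M * (∏ i, (1 + ((b i).natAbs : ℝ))) * (X / Real.log X) ^ (m + 1) / √(y : ℝ) := by
  obtain ⟨M₁, hM₁0, hM₁⟩ := scales (m + 1)
  obtain ⟨A, hA⟩ : ∃ A : ℝ, A = 1 + Real.log (2 * κ + 1) := ⟨_, rfl⟩
  have hA1 : 1 ≤ A := by
    rw [hA]
    have : 0 ≤ Real.log (2 * κ + 1) := Real.log_nonneg (by
      have : (0 : ℝ) ≤ κ := Nat.cast_nonneg _
      linarith)
    linarith
  obtain ⟨M₂, hM₂⟩ : ∃ M₂ : ℝ, M₂ = 176 ^ (m + 1) * (K * A ^ (3 * (m + 1)) * M₁) := ⟨_, rfl⟩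
  obtain ⟨M₃, hM₃⟩ : ∃ M₃ : ℝ, M₃ = 176 ^ (m + 1) * √((2 * N₀ : ℕ) : ℝ) := ⟨_, rfl⟩
  have hM₂0 : 0 ≤ M₂ := by rw [hM₂]; positivity
  have hM₃0 : 0 ≤ M₃ := by rw [hM₃]; positivity
  refine ⟨M₂ + M₃, by positivity, fun b X y hy hX => ?_⟩
  have hX4 : (4 : ℝ) ≤ X := by exact_mod_cast hX
  have hX0 : (0 : ℝ) < X := by linarith
  have hlX : 0 < Real.log X := Real.log_pos (by linarith)
  obtain ⟨U, hU⟩ : ∃ U : ℝ, U = (X : ℝ) / Real.log X := ⟨_, rfl⟩
  have hU0 : 0 < U := by rw [hU]; positivity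
  obtain ⟨P, hP⟩ : ∃ P : ℝ, P = ∏ i, (1 + ((b i).natAbs : ℝ)) := ⟨_, rfl⟩
  have hP0 : 0 ≤ P := by rw [hP]; exact prod_nonneg fun i _ => by positivity
  have hy1 : (1 : ℝ) ≤ y := by exact_mod_cast hy
  have hsy : 0 < √(y : ℝ) := Real.sqrt_pos.2 (by linarith)
  rw [← hU, ← hP]
  rcases lt_or_ge y (2 * N₀) with hyN | hyN
  · -- small `y`
    have h1 := trivial_bound κ B b X y hX
    rw [← hU, ← hP] at h1
    have h2 : √(y : ℝ) ≤ √((2 * N₀ : ℕ) : ℝ) := Real.sqrt_le_sqrt (by exact_mod_cast hyN.le)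
    rw [le_div_iff₀ hsy]
    have h3 : 0 ≤ P * U ^ (m + 1) := by positivity
    calc ((BadPrimes κ B b X y).ncard : ℝ) * √(y : ℝ)
        ≤ (176 ^ (m + 1) * P * U ^ (m + 1)) * √((2 * N₀ : ℕ) : ℝ) := by
          apply mul_le_mul h1 h2 hsy.le (by positivity)
      _ = M₃ * (P * U ^ (m + 1)) := by rw [hM₃]; ring
      _ ≤ (M₂ + M₃) * (P * U ^ (m + 1)) := mul_le_mul_of_nonneg_right (by linarith) h3
      _ = _ := by ring
  · -- large `y`
    obtain ⟨J, hJ⟩ : ∃ J : Finset ℕ, J = (range (2 * X + 1)).filter (fun j => y < 2 ^ (j + 1)) := ⟨_, rfl⟩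
    obtain ⟨S, hS⟩ : ∃ S : ℕ → Finset (Fin (m + 1) → ℕ), S = fun j => (badAt_finite κ B (2 ^ j)).toFinset := ⟨_, rfl⟩
    have hSmem : ∀ j s, s ∈ S j ↔ s ∈ BadAt κ B (2 ^ j) := by
      intro j s
      rw [hS]
      simp
    have hScard : ∀ j, (S j).card = (BadAt κ B (2 ^ j)).ncard := by
      intro j
      rw [hS]
      simp only
      rw [Set.ncard_eq_toFinset_card _ (badAt_finite κ B (2 ^ j))]
    have hsub : BadPrimes κ B b X y ⊆
        ↑(J.biUnion fun j => (S j).biUnion fun s => Fintype.piFinset fun i => Q (b i) X (s i)) := by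
      rintro p ⟨hp, T, s, hyT, hs, hBT⟩
      obtain ⟨j, hj⟩ : ∃ j, j = Nat.log 2 T := ⟨_, rfl⟩
      have hT0 : T ≠ 0 := by omega
      have hj1 : 2 ^ j ≤ T := by rw [hj]; exact Nat.pow_log_le_self 2 hT0
      have hj2 : T < 2 ^ (j + 1) := by rw [hj]; exact Nat.lt_pow_succ_log_self (by norm_num) T
      rw [mem_coe, mem_biUnion]
      refine ⟨j, ?_, ?_⟩
      · rw [hJ, mem_filter, mem_range]
        refine ⟨?_, by omega⟩
        obtain ⟨h1, h2, h3⟩ := hp 0
        obtain ⟨h4, -, h5⟩ := hs 0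
        have h6 : (s 0 : ℤ) ≤ (p 0 : ℤ) + b 0 := Int.le_of_dvd (by omega) h5
        have h7 : j < 2 ^ j := Nat.lt_two_pow_self
        omega
      · rw [mem_biUnion]
        refine ⟨s, ?_, ?_⟩
        · rw [hSmem]
          refine ⟨fun i => ⟨hj1.trans (hs i).1, ?_⟩, T, hj1, by rw [pow_succ] at hj2; omega, hBT⟩
          have h1 := (hs i).2.1
          have h2 : κ * T ≤ κ * (2 * 2 ^ j) := Nat.mul_le_mul_left κ (by rw [pow_succ] at hj2; omega)
          calc s i ≤ κ * T := h1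
            _ ≤ κ * (2 * 2 ^ j) := h2
            _ = 2 * κ * 2 ^ j := by ring
        · rw [Fintype.mem_piFinset]
          intro i
          obtain ⟨h1, h2, h3⟩ := hp i
          exact mem_Q h1 h2 h3 (hs i).2.2
    have h1 := Set.ncard_le_ncard hsub (Finset.finite_toSet _)
    rw [Set.ncard_coe_finset] at h1
    have h2 : ((BadPrimes κ B b X y).ncard : ℝ) ≤
        ∑ j ∈ J, ∑ s ∈ S j, ∏ i, ((Q (b i) X (s i)).card : ℝ) := by
      have h3 : (J.biUnion fun j => (S j).biUnion fun s => Fintype.piFinset fun i => Q (b i) X (s i)).card ≤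
          ∑ j ∈ J, ∑ s ∈ S j, ∏ i, (Q (b i) X (s i)).card := by
        refine card_biUnion_le.trans (sum_le_sum fun j _ => ?_)
        refine card_biUnion_le.trans (sum_le_sum fun s _ => ?_)
        rw [Fintype.card_piFinset]
      have h4 : ((BadPrimes κ B b X y).ncard : ℝ) ≤
          ((∑ j ∈ J, ∑ s ∈ S j, ∏ i, (Q (b i) X (s i)).card : ℕ) : ℝ) := by exact_mod_cast h1.trans h3
      refine h4.trans (le_of_eq ?_)
      push_cast
      rfl
    have hterm : ∀ j ∈ J, ∑ s ∈ S j, ∏ i, ((Q (b i) X (s i)).card : ℝ) ≤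
        176 ^ (m + 1) * (K * A ^ (3 * (m + 1))) * (P * U ^ (m + 1)) * ((1 + (j : ℝ)) ^ (3 * (m + 1)) / 2 ^ j) := by
      intro j hj
      rw [hJ, mem_filter] at hj
      have hj0 : (0 : ℝ) ≤ j := Nat.cast_nonneg j
      have h2j : (1 : ℝ) ≤ 2 ^ j := one_le_pow₀ (by norm_num)
      have hNj : N₀ ≤ 2 ^ j := by
        have := hj.2
        rw [pow_succ] at this
        omega
      obtain ⟨r, hr⟩ : ∃ r : ℝ, r = (A * (1 + (j : ℝ))) ^ 3 / 2 ^ j := ⟨_, rfl⟩
      have hr0 : 0 ≤ r := by rw [hr]; positivity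
      have hprod : ∀ s ∈ S j, ∏ i, ((Q (b i) X (s i)).card : ℝ) ≤ 176 ^ (m + 1) * P * U ^ (m + 1) * r ^ (m + 1) := by
        intro s hs
        rw [hSmem] at hs
        have h5 : ∏ i, ((Q (b i) X (s i)).card : ℝ) ≤
            ∏ i : Fin (m + 1), (176 * (1 + ((b i).natAbs : ℝ)) * U * r) := by
          apply prod_le_prod
          · intro i _
            positivity
          · intro i _
            obtain ⟨g1, g2⟩ := hs.1 i
            have g3 : 1 ≤ s i := le_trans Nat.one_le_two_pow g1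
            have g4 := one (b i) X (s i) g3 hX
            rw [← hU] at g4
            refine g4.trans ?_
            apply mul_le_mul_of_nonneg_left _ (by positivity)
            have g5 : (1 : ℝ) ≤ s i := by exact_mod_cast g3
            have g6 : ((2 : ℝ) ^ j) ≤ s i := by exact_mod_cast g1
            have g7 : (s i : ℝ) ≤ (2 * κ + 1) * 2 ^ j := by
              have : (s i : ℝ) ≤ 2 * κ * 2 ^ j := by exact_mod_cast g2
              nlinarith
            have g8 : Real.log (s i) ≤ Real.log (2 * κ + 1) + j := by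
              have h9 := Real.log_le_log (by linarith) g7
              have hκ : (0 : ℝ) ≤ κ := Nat.cast_nonneg κ
              rw [Real.log_mul (by positivity) (by positivity), Real.log_pow] at h9
              have hl2 : Real.log 2 ≤ 1 := by have := Real.log_two_lt_d9; linarith
              nlinarith
            have g9 : 1 + Real.log (s i) ≤ A * (1 + j) := by
              have : A * (1 + j) = A + A * j := by ring
              rw [this]
              have h10 : (j : ℝ) ≤ A * j := by nlinarith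
              rw [hA] at *
              linarith
            have g10 : 0 ≤ Real.log (s i) := Real.log_nonneg g5
            rw [hr]
            calc (1 + Real.log (s i)) ^ 3 / (s i : ℝ) ≤ (A * (1 + j)) ^ 3 / (s i : ℝ) := by
                  apply div_le_div_of_nonneg_right _ (by linarith)
                  exact pow_le_pow_left₀ (by linarith) g9 3
              _ ≤ (A * (1 + j)) ^ 3 / 2 ^ j := by
                  apply div_le_div_of_nonneg_left _ (by positivity) g6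
                  positivity
        refine h5.trans (le_of_eq ?_)
        rw [prod_mul_distrib, prod_mul_distrib, prod_mul_distrib, prod_const, prod_const, prod_const, card_univ,
          Fintype.card_fin, ← hP]
      have hcard : ((S j).card : ℝ) ≤ K * (2 ^ j) ^ m := by
        rw [hScard]
        exact_mod_cast hB (2 ^ j) hNj
      calc ∑ s ∈ S j, ∏ i, ((Q (b i) X (s i)).card : ℝ)
          ≤ ∑ _s ∈ S j, 176 ^ (m + 1) * P * U ^ (m + 1) * r ^ (m + 1) := sum_le_sum hprod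
        _ = (S j).card * (176 ^ (m + 1) * P * U ^ (m + 1) * r ^ (m + 1)) := by
            rw [sum_const, nsmul_eq_mul]
        _ ≤ (K * (2 ^ j) ^ m) * (176 ^ (m + 1) * P * U ^ (m + 1) * r ^ (m + 1)) :=
            mul_le_mul_of_nonneg_right hcard (by positivity)
        _ = 176 ^ (m + 1) * (K * A ^ (3 * (m + 1))) * (P * U ^ (m + 1)) *
            ((1 + (j : ℝ)) ^ (3 * (m + 1)) / 2 ^ j) := by
            have h11 : r ^ (m + 1) * (2 ^ j : ℝ) ^ m = A ^ (3 * (m + 1)) * ((1 + (j : ℝ)) ^ (3 * (m + 1)) / 2 ^ j) := by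
              rw [hr, div_pow, pow_mul, pow_mul, ← mul_div_assoc, ← mul_pow, ← mul_pow, div_mul_eq_mul_div,
                div_eq_div_iff (by positivity) (by positivity)]
              ring
            calc (K * (2 ^ j : ℝ) ^ m) * (176 ^ (m + 1) * P * U ^ (m + 1) * r ^ (m + 1))
                = K * (176 ^ (m + 1) * P * U ^ (m + 1)) * (r ^ (m + 1) * (2 ^ j : ℝ) ^ m) := by ring
              _ = K * (176 ^ (m + 1) * P * U ^ (m + 1)) *
                  (A ^ (3 * (m + 1)) * ((1 + (j : ℝ)) ^ (3 * (m + 1)) / 2 ^ j)) := by rw [h11]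
              _ = _ := by ring
    refine h2.trans ((sum_le_sum hterm).trans ?_)
    rw [← mul_sum]
    have h12 := hM₁ y (2 * X + 1) hy
    rw [← hJ] at h12
    have h13 : 0 ≤ P * U ^ (m + 1) := by positivity
    calc 176 ^ (m + 1) * (K * A ^ (3 * (m + 1))) * (P * U ^ (m + 1)) *
          ∑ j ∈ J, (1 + (j : ℝ)) ^ (3 * (m + 1)) / 2 ^ j
        ≤ 176 ^ (m + 1) * (K * A ^ (3 * (m + 1))) * (P * U ^ (m + 1)) * (M₁ / √(y : ℝ)) :=
          mul_le_mul_of_nonneg_left h12 (by positivity)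
      _ = M₂ * (P * U ^ (m + 1)) / √(y : ℝ) := by rw [hM₂]; ring
      _ ≤ (M₂ + M₃) * (P * U ^ (m + 1)) / √(y : ℝ) := by
          apply div_le_div_of_nonneg_right _ hsy.le
          exact mul_le_mul_of_nonneg_right (by linarith) h13
      _ = _ := by ring

end Pool.Agent.T4h28.DT
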